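import Pool.Agent.H37AC.Fin

/-!
# Almost prime values `p² + p + k` (and `a p² + b p + k`) at primes `p`: all but few constants `k` of every interval

The question is whether `p² + p + k` is prime for the expected number of primes `p`, for the single constant `k = 1`. Here the
constant runs through an arbitrary interval of length `x ^ h` in `[-x², x²]`, `0 < h ≤ 2`, where `x` is the size of the primes.

Method: the level of distribution on average over the constant terms (large sieve and Bombieri-Vinogradov, starting files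
`Pool.Agent.Y882.GP`), the weighted linear sieve with universal weights (starting files, `Pool.Agent.Y882.KW.Core3`), with
Richert's constants (`Pool.Agent.T6.H57.LamR`); new here: the weights at polynomials of primes, the regularity of the numbers of
the roots of `a m² + b m + k` modulo ALL the medium primes for all but `x ^ (h / 2 + ε)` of the constants (from Heath-Brown's
large sieve for real characters, starting files `Pool.Agent.H423R2.RZL.HBLS`), the squares of the medium primes, and the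
uniformity in the interval (`Pool.Agent.H37AC`).
-/

set_option autoImplicit false

namespace Pool.Agent.Results.MP_82233c_nt.AlmostAllConstants

open Finset

/-- The number of the primes `p` with `x / 2 < p < x` such that `|a p² + b p + k| > 1`, this number has at most `r` prime factors
(counted with multiplicity), and all its prime factors are at least `w`. -/
noncomputable def count (a b k : ℤ) (r : ℕ) (x w : ℝ) : ℕ :=
  open Classical in
  ((Icc 1 ⌊x⌋₊).filter (fun p : ℕ => p.Prime ∧ x / 2 < p ∧ (p : ℝ) < x ∧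
    1 < |a * (p : ℤ) ^ 2 + b * p + k| ∧
    (a * (p : ℤ) ^ 2 + b * p + k).natAbs.primeFactorsList.length ≤ r ∧
    ∀ q : ℕ, q.Prime → (q : ℤ) ∣ a * (p : ℤ) ^ 2 + b * p + k → w ≤ q)).card

/-- The number of the residues `m` modulo `q`, prime to `q`, with `a m² + b m + k ≡ 0 (mod q)`. -/
def rho (a b k : ℤ) (q : ℕ) : ℕ :=
  ((range q).filter (fun m : ℕ => (q : ℤ) ∣ a * (m : ℤ) ^ 2 + b * m + k ∧ m.Coprime q)).card

/-- The product of the local densities `1 - ρ(q) / (q - 1)` over the primes `q ≤ x`. -/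
noncomputable def localProduct (a b k : ℤ) (x : ℝ) : ℝ :=
  ∏ q ∈ (Icc 1 ⌊x⌋₊).filter Nat.Prime, (1 - (rho a b k q : ℝ) / ((q : ℝ) - 1))

/-- Richert's constant `Λ_r = r + 1 - log (4 / (1 + 3 ^ (-r))) / log 3 = 1 + log ((1 + 3 ^ r) / 4) / log 3`. -/
noncomputable def Lambda (r : ℕ) : ℝ := 1 + Real.log ((1 + 3 ^ r) / 4) / Real.log 3

/-! ### The forms of `Pool.Agent.H37AC` -/

open Pool.Agent.H37AC Pool.Agent.Y882.GP

lemma eval_shift (a b k K : ℤ) (m : ℤ) : (Pool.Agent.H37AC.fq a b K).eval m + (k - K) = a * m ^ 2 + b * m + k := by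
  rw [Pool.Agent.H37AC.fq_eval]
  ring

lemma count_eq (a b k K : ℤ) (r : ℕ) (x w : ℝ) :
    count a b k r x w = (gr (Pool.Agent.H37AC.fq a b K) (k - K) r x w).card := by
  unfold count gr
  congr 1
  ext p
  simp only [mem_filter, eval_shift]

lemma rho_eq (a b k K : ℤ) (q : ℕ) : rho a b k q = rs (Pool.Agent.H37AC.fq a b K) (k - K) q := by
  classical
  unfold rho rs Rt
  congr 1
  ext m
  rw [mem_filter, mem_filter, eval_shift]

lemma localProduct_eq (a b k K : ℤ) (x : ℝ) :
    localProduct a b k x = locP (Pool.Agent.H37AC.fq a b K) (k - K) x := by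
  unfold localProduct locP
  simp only [rho_eq a b k K]

open Classical in
/-- **(1)** Let `a ≥ 1`, `b` be integers, `r ≥ 1`, `0 < h ≤ 2`, `τ Λ_r > 2`, `2 τ - 1 ≤ h` and `ε > 0`. There is `δ > 0` such that
for every large `x` and every integer `K` with `|K| ≤ x²`, for all but at most `x ^ (max (h / 2) (2 τ - 1) + ε)` of the integers
`k` with `|k - K| ≤ x ^ h` the number of the primes `p`, `x / 2 < p < x`, such that `a p² + b p + k` has at most `r` prime
factors, all of them at least `x ^ (τ / 4)`, is at least `δ (x / log x) ∏_{q ≤ x} (1 - ρ_k(q) / (q - 1))` (the right order).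

**(2)** The condition `τ Λ_r > 2` holds for `r = 2`, `τ = 1.0906`; for `r = 3`, `τ = 0.7218`; for `r = 4`, `τ = 0.5336`; and for
`r = 5`, `τ = 0.422`. So (1) has content for `r = 2` if `h > 1.1812`, for `r = 3` if `h > 0.4436` (if `h ≥ 0.8872`, for all but
`x ^ (h / 2 + ε)` of the `k`), for `r = 4` if `h > 0.0672`, and for `r = 5` for every `h > 0`.

**(3)** For `a = b = 1` and odd `k` the product is at least `c / (log x)²`. -/
theorem result :
    (∀ (a b : ℤ), 1 ≤ a → ∀ r : ℕ, 1 ≤ r → ∀ h τ ε : ℝ, 0 < h → h ≤ 2 → 2 < τ * Lambda r → 2 * τ - 1 ≤ h → 0 < ε →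
      ∃ δ : ℝ, 0 < δ ∧ ∃ x₀ : ℝ, ∀ x : ℝ, x₀ ≤ x → ∀ K : ℤ, |(K : ℝ)| ≤ x ^ 2 →
        (((Icc (K - ⌊x ^ h⌋) (K + ⌊x ^ h⌋)).filter (fun k : ℤ =>
          (count a b k r x (x ^ (τ / 4)) : ℝ) < δ * (x / Real.log x) * localProduct a b k x)).card : ℝ) ≤
        x ^ (max (h / 2) (2 * τ - 1) + ε)) ∧
    (2 < 1.0906 * Lambda 2 ∧ 2 < 0.7218 * Lambda 3 ∧ 2 < 0.5336 * Lambda 4 ∧ 2 < 0.422 * Lambda 5) ∧
    (∃ c : ℝ, 0 < c ∧ ∀ k : ℤ, Odd k → ∀ x : ℝ, 3 ≤ x → c / Real.log x ^ 2 ≤ localProduct 1 1 k x) := by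
  refine ⟨?_, ⟨num2, num3, num4, num5⟩, ?_⟩
  · intro a b ha r hr h τ ε hh hh2 hL hτh hε
    obtain ⟨δ, hδ, x₀, hx₀, H⟩ := main_x a b ha r hr h τ ε hh hh2 hL hτh hε
    refine ⟨δ, hδ, x₀, fun x hx K hK => ?_⟩
    have hx0 : 0 < x := by linarith
    refine le_trans ?_ (H x hx K hK)
    have hfl : (⌊x ^ h⌋₊ : ℤ) = ⌊x ^ h⌋ := Int.natCast_floor_eq_floor (by positivity)
    apply Nat.cast_le.2
    apply card_le_card_of_injOn (fun k => k - K)
    · intro k hk
      rw [mem_coe, mem_filter, mem_Icc] at hk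
      obtain ⟨⟨h1, h2⟩, h3⟩ := hk
      rw [count_eq a b k K, localProduct_eq a b k K] at h3
      rw [mem_coe, mem_filter, mem_Icc, hfl]
      exact ⟨⟨by linarith, by linarith⟩, h3⟩
    · intro k _ k' _ hkk
      simp only at hkk
      linarith
  · obtain ⟨c, hc, H⟩ := loc_odd
    refine ⟨c, hc, fun k hk x hx => ?_⟩
    rw [localProduct_eq 1 1 k 0, sub_zero]
    exact H k hk x hx

end Pool.Agent.Results.MP_82233c_nt.AlmostAllConstants
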