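import Pool.Agent.H12P.Main

/-!
# Prime values at prime arguments, for almost all systems of polynomials

The question is about the primes `q` for which `q ^ 2 + q + 1` is prime. Here: for 100% of all systems
`F_1, ..., F_m` of integer polynomials of given degrees (all coefficients in `[-H, H]`) the number of the
primes `q` for which all `|F_i(q)|` are primes is asymptotically equal to the value predicted by
Bateman and Horn, for all ranges of the size `v` of `q` between `(log H) ^ B` and `H / (log H) ^ B`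
simultaneously, and also in the intervals `(u, v]` of the length at least `v / (log v) ^ A`.
-/

set_option autoImplicit false

namespace Pool.Agent.Results.MP_82233c_nt.AlmostAllPolynomials

open Finset

/-- `F(n)` for the polynomial `F` with the coefficients `c 0, ..., c d`. -/
def val {d : ℕ} (c : Fin (d + 1) → ℤ) (n : ℤ) : ℤ := ∑ l : Fin (d + 1), c l * n ^ (l : ℕ)

/-- The systems of `m` polynomials, the `i`-th with the coefficients `a i 0, ..., a i (dd i)` in `[-H, H]`. -/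
noncomputable def box {m : ℕ} (dd : Fin m → ℕ) (H : ℕ) : Finset (∀ i : Fin m, Fin (dd i + 1) → ℤ) :=
  Fintype.piFinset fun _ => Fintype.piFinset fun _ => Icc (-(H : ℤ)) H

/-- The number of the primes `q` with `u < q ≤ v` for which all `|F_i(q)|` are primes. -/
def count {m : ℕ} {dd : Fin m → ℕ} (a : ∀ i : Fin m, Fin (dd i + 1) → ℤ) (u v : ℕ) : ℕ :=
  ((Ioc u v).filter (fun q : ℕ => q.Prime ∧ ∀ i, (val (a i) (q : ℤ)).natAbs.Prime)).card

/-- The sum of `1 / (log n ∏ log |F_i(n)|)` over the `u < n ≤ v` with `n ≥ 2` and all `|F_i(n)| ≥ 2`. -/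
noncomputable def expected {m : ℕ} {dd : Fin m → ℕ} (a : ∀ i : Fin m, Fin (dd i + 1) → ℤ) (u v : ℕ) : ℝ :=
  ∑ n ∈ (Ioc u v).filter (fun n : ℕ => 2 ≤ n ∧ ∀ i, 2 ≤ |val (a i) (n : ℤ)|),
    1 / (Real.log n * ∏ i, Real.log |(val (a i) (n : ℤ) : ℝ)|)

/-- `ω(p)`: the number of the residues `n` modulo `p`, prime to `p`, with `∏ F_i(n) ≡ 0 (mod p)`. -/
def omega {m : ℕ} {dd : Fin m → ℕ} (p : ℕ) (a : ∀ i : Fin m, Fin (dd i + 1) → ℤ) : ℕ :=
  ((range p).filter (fun n : ℕ => ¬ p ∣ n ∧ (p : ℤ) ∣ ∏ i, val (a i) (n : ℤ))).card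

/-- The constant of Bateman and Horn for prime arguments, the product over the primes `p ≤ z` of
`(1 - ω(p) / (p - 1)) (1 - 1 / p) ^ (-m)`. -/
noncomputable def const {m : ℕ} {dd : Fin m → ℕ} (z : ℕ) (a : ∀ i : Fin m, Fin (dd i + 1) → ℤ) : ℝ :=
  ∏ p ∈ (Icc 1 z).filter Nat.Prime, (1 - (omega p a : ℝ) / (p - 1)) / (1 - 1 / (p : ℝ)) ^ m

open Pool.Agent.H13K Pool.Agent.H12P

lemma count_eq {m : ℕ} {dd : Fin m → ℕ} (a : ∀ i : Fin m, Fin (dd i + 1) → ℤ) (u v : ℕ) (huv : u ≤ v) :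
    (count a u v : ℝ) = P1 a v - P1 a u := by
  have h1 : ∀ K : ℕ, P1 a K = (((Icc 1 K).filter (fun q : ℕ => q.Prime ∧ ∀ i, (Fv (a i) (q : ℤ)).natAbs.Prime)).card : ℝ) := by
    intro K
    unfold P1 pr
    rw [← filter_filter, card_filter, Nat.cast_sum]
    refine sum_congr rfl fun q _ => ?_
    rw [prod_boole]
    simp
  rw [h1, h1]
  have h2 : (Icc 1 v).filter (fun q : ℕ => q.Prime ∧ ∀ i, (Fv (a i) (q : ℤ)).natAbs.Prime) =
      (Icc 1 u).filter (fun q : ℕ => q.Prime ∧ ∀ i, (Fv (a i) (q : ℤ)).natAbs.Prime) ∪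
      (Ioc u v).filter (fun q : ℕ => q.Prime ∧ ∀ i, (Fv (a i) (q : ℤ)).natAbs.Prime) := by
    rw [← filter_union]
    congr 1
    ext n
    rw [mem_union, mem_Icc, mem_Icc, mem_Ioc]
    omega
  have h3 : Disjoint ((Icc 1 u).filter (fun q : ℕ => q.Prime ∧ ∀ i, (Fv (a i) (q : ℤ)).natAbs.Prime))
      ((Ioc u v).filter (fun q : ℕ => q.Prime ∧ ∀ i, (Fv (a i) (q : ℤ)).natAbs.Prime)) := by
    refine disjoint_filter_filter ?_
    rw [disjoint_left]
    intro n hn hn'
    rw [mem_Icc] at hn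
    rw [mem_Ioc] at hn'
    omega
  rw [h2, card_union_of_disjoint h3]
  push_cast
  have h4 : count a u v = ((Ioc u v).filter (fun q : ℕ => q.Prime ∧ ∀ i, (Fv (a i) (q : ℤ)).natAbs.Prime)).card := rfl
  rw [h4]
  ring

lemma expected_eq {m : ℕ} {dd : Fin m → ℕ} (a : ∀ i : Fin m, Fin (dd i + 1) → ℤ) (u v : ℕ) (huv : u ≤ v) :
    expected a u v = L1 a v - L1 a u := by
  have h1 : ∀ n : ℕ, (if 2 ≤ n ∧ ∀ i, 2 ≤ |val (a i) (n : ℤ)| then 1 / (Real.log n * ∏ i, Real.log |(val (a i) (n : ℤ) : ℝ)|)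
      else 0) = if 2 ≤ n then Wf a (n : ℤ) / Real.log n else 0 := by
    intro n
    by_cases h2 : 2 ≤ n
    · rw [if_pos h2]
      by_cases h3 : ∀ i, 2 ≤ |val (a i) (n : ℤ)|
      · rw [if_pos ⟨h2, h3⟩]
        have h4 : Wf a (n : ℤ) = ∏ i, (1 / Real.log |(val (a i) (n : ℤ) : ℝ)|) := by
          unfold Wf lg
          refine prod_congr rfl fun i _ => ?_
          exact if_pos (h3 i)
        rw [h4, prod_div_distrib, prod_const_one, div_div, mul_comm]
      · rw [if_neg (fun h => h3 h.2)]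
        push Not at h3
        obtain ⟨i, hi⟩ := h3
        have h4 : Wf a (n : ℤ) = 0 := by
          unfold Wf lg
          exact prod_eq_zero (mem_univ i) (if_neg (not_le.2 hi))
        rw [h4, zero_div]
    · rw [if_neg h2, if_neg (fun h => h2 h.1)]
  have h2 : expected a u v = ∑ n ∈ (Ioc u v).filter (fun n => 2 ≤ n), Wf a (n : ℤ) / Real.log n := by
    unfold expected
    rw [sum_filter, sum_filter]
    exact sum_congr rfl fun n _ => h1 n
  rw [h2]
  unfold L1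
  have h3 : Icc 2 v = Icc 2 u ∪ (Ioc u v).filter (fun n => 2 ≤ n) := by
    ext n
    rw [mem_union, mem_Icc, mem_Icc, mem_filter, mem_Ioc]
    omega
  have h4 : Disjoint (Icc 2 u) ((Ioc u v).filter (fun n => 2 ≤ n)) := by
    rw [disjoint_left]
    intro n hn hn'
    rw [mem_Icc] at hn
    rw [mem_filter, mem_Ioc] at hn'
    omega
  rw [h3, sum_union h4]
  ring

lemma local_cond {m : ℕ} {dd : Fin m → ℕ} (a : ∀ i : Fin m, Fin (dd i + 1) → ℤ) (p : ℕ) (hp : p.Prime)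
    (h : ∃ n : ℤ, ¬ (p : ℤ) ∣ n * ∏ i, val (a i) n) : om1 p a ≠ p - 1 := by
  obtain ⟨n, hn⟩ := h
  have hpz : (p : ℤ) ≠ 0 := by exact_mod_cast hp.ne_zero
  obtain ⟨r, hr⟩ : ∃ r : ℕ, r = (n % p).toNat := ⟨_, rfl⟩
  have hr0 : (r : ℤ) = n % p := by rw [hr]; exact Int.toNat_of_nonneg (Int.emod_nonneg _ hpz)
  have hrp : r < p := by
    have h1 : (r : ℤ) < p := by
      rw [hr0]
      exact Int.emod_lt_of_pos _ (by exact_mod_cast hp.pos)
    exact_mod_cast h1
  have hd : (p : ℤ) ∣ (r : ℤ) - n := by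
    rw [hr0, ← neg_sub]
    exact (dvd_neg).2 Int.dvd_self_sub_emod
  have hpr : Prime (p : ℤ) := Nat.prime_iff_prime_int.1 hp
  have hr1 : ¬ p ∣ r := by
    intro h1
    have h2 : (p : ℤ) ∣ (r : ℤ) := by exact_mod_cast h1
    have h3 : (p : ℤ) ∣ n := (dvd_iff_dvd_of_dvd_sub hd).1 h2
    exact hn (Dvd.dvd.mul_right h3 _)
  have hr2 : ¬ (p : ℤ) ∣ ∏ i, Fv (a i) (r : ℤ) := by
    intro h1
    obtain ⟨i, -, h2⟩ := (hpr.dvd_finsetProd_iff _).1 h1
    have h3 := Pool.Agent.H13K.CRT.Fv_congr (a i) p _ _ hd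
    have h4 : (p : ℤ) ∣ Fv (a i) n := (dvd_iff_dvd_of_dvd_sub h3).1 h2
    exact hn (Dvd.dvd.mul_left (h4.trans (dvd_prod_of_mem (fun i => Fv (a i) n) (mem_univ i))) _)
  have hr3 : r ≠ 0 := fun h0 => hr1 (h0 ▸ dvd_zero p)
  have h5 : ((range p).filter (fun n : ℕ => ¬ p ∣ n ∧ (p : ℤ) ∣ ∏ i, Fv (a i) (n : ℤ))) ⊆ ((range p).erase 0).erase r := by
    intro x hx
    rw [mem_filter, mem_range] at hx
    rw [mem_erase, mem_erase, mem_range]
    refine ⟨fun h6 => hr2 (h6 ▸ hx.2.2), fun h6 => hx.2.1 (h6 ▸ dvd_zero p), hx.1⟩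
  have h6 := card_le_card h5
  rw [card_erase_of_mem (mem_erase.2 ⟨hr3, mem_range.2 hrp⟩), card_erase_of_mem (mem_range.2 hp.pos), card_range] at h6
  have h7 : om1 p a ≤ p - 1 - 1 := h6
  have := hp.two_le
  omega

/-- Let `dd i ≥ 1` be the degrees (`i < m`) and `A` a natural number. There are `B` and `H₀` such that for all
`H ≥ H₀` there is a set `Bad` of at most `#box / (log log H) ^ A` systems such that for all the other systems
`F_1, ..., F_m` of the box: `F_i` has the degree `dd i`, and if for every prime `p` there is an integer `n` with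
`p ∤ n F_1(n) ⋯ F_m(n)` then for all `z` between `(log H) ^ B` and `H ^ (1/4)` the constant `C = const z` is
positive, and for all `u, v` with `(log H) ^ B ≤ v ≤ H / (log H) ^ B` and `v - u ≥ v / (log v) ^ A` the
number of the primes `q` in `(u, v]` for which all `|F_i(q)|` are primes is `C · expected` up to the
factor `1 ± 1 / (log v) ^ A`, and `C · expected ≥ log H`. -/
theorem result (m : ℕ) (dd : Fin m → ℕ) (hdd : ∀ i, 1 ≤ dd i) (A : ℕ) :
    ∃ B H₀ : ℕ, ∀ H : ℕ, H₀ ≤ H → ∃ Bad ⊆ box dd H,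
      (Bad.card : ℝ) ≤ ((box dd H).card : ℝ) / Real.log (Real.log H) ^ A ∧
    ∀ a ∈ box dd H, a ∉ Bad → (∀ i, a i (Fin.last (dd i)) ≠ 0) ∧
      ((∀ p : ℕ, p.Prime → ∃ n : ℤ, ¬ (p : ℤ) ∣ n * ∏ i, val (a i) n) →
        ∀ z : ℕ, Real.log H ^ B ≤ z → z ^ 4 ≤ H → 0 < const z a ∧
        ∀ u v : ℕ, Real.log H ^ B ≤ v → (v : ℝ) * Real.log H ^ B ≤ H →
          (v : ℝ) ≤ ((v : ℝ) - u) * Real.log v ^ A →
          Real.log H ≤ const z a * expected a u v ∧
          |(count a u v : ℝ) - const z a * expected a u v| ≤ const z a * expected a u v / Real.log v ^ A) := by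
  obtain ⟨B, H0, h⟩ := Pool.Agent.H12P.Main.core m dd hdd A
  refine ⟨B + 1, max H0 3, fun H hH => ?_⟩
  obtain ⟨Bad, h1, h2, h3⟩ := h H ((le_max_left _ _).trans hH)
  refine ⟨Bad, h1, h2, fun a ha hab => ?_⟩
  obtain ⟨h4, h5⟩ := h3 a ha hab
  refine ⟨h4, fun hl z hz hz4 => ?_⟩
  have hHr : (3 : ℝ) ≤ H := by exact_mod_cast (le_max_right _ _).trans hH
  have hL1 : 1 ≤ Real.log H := by
    rw [Real.le_log_iff_exp_le (by linarith)]
    have := Real.exp_one_lt_d9
    linarith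
  have hBB : Real.log H ^ B ≤ Real.log H ^ (B + 1) := pow_le_pow_right₀ hL1 (Nat.le_succ _)
  obtain ⟨h6, h7⟩ := h5 (fun p hp => local_cond a p hp (hl p hp)) z (hBB.trans hz) hz4
  refine ⟨h6, fun u v hv1 hv2 huv => ?_⟩
  have hL0 : 0 < Real.log H := by linarith
  have hvpos : (0 : ℝ) < v := lt_of_lt_of_le (by positivity) hv1
  have huv' : u ≤ v := by
    by_contra hcon
    push Not at hcon
    have h8 : (v : ℝ) - u ≤ 0 := by
      have : (v : ℝ) ≤ u := by exact_mod_cast hcon.le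
      linarith
    have h9 : 0 ≤ Real.log v ^ A := pow_nonneg (Real.log_natCast_nonneg v) _
    have h10 : ((v : ℝ) - u) * Real.log v ^ A ≤ 0 := mul_nonpos_of_nonpos_of_nonneg h8 h9
    linarith
  have h8 := h7 u v (hBB.trans hv1) ((mul_le_mul_of_nonneg_left hBB hvpos.le).trans hv2) huv
  rw [← count_eq a u v huv', ← expected_eq a u v huv'] at h8
  exact h8

end Pool.Agent.Results.MP_82233c_nt.AlmostAllPolynomials
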