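import Pool.Agent.Y816.PD.UniS
import Pool.Agent.Y816.PD.UniL
import Pool.Agent.Y816.PD.Inst2

set_option autoImplicit false

/-!
# Primes `p` with `p ^ 2 + p + 1` prime: restricted digits, also in short intervals

The digits of `j = m - N` in base `b` at the places `i < K` belong to arbitrary sets `E i`, which may be so
small that only the proportion `exp (- c K)` of all digit strings is allowed; uniformly in these sets and in
`N ≤ b ^ (D K)`.
-/

namespace Pool.Agent.Results.MP_82233c_nt.RestrictedDigits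

open Finset Filter Polynomial

/-- The product `m (m ^ 2 + m + 1)`. -/
def F (m : ℕ) : ℕ := m * (m ^ 2 + m + 1)

/-- The number of the `j < b ^ K` whose base `b` digit at the place `i` belongs to `E i` for all `i < K`,
for which `N + j` belongs to `S`. -/
noncomputable def count (b K : ℕ) (E : ℕ → Finset ℕ) (N : ℕ) (S : Set ℕ) : ℕ :=
  {j : ℕ | j < b ^ K ∧ (∀ i < K, j / b ^ i % b ∈ E i) ∧ N + j ∈ S}.ncard

/-- The `m` for which `m (m ^ 2 + m + 1)` has at most `r` prime factors, all of them larger than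
`y ^ (1 / r)`. -/
def Almost (r y : ℕ) : Set ℕ :=
  {m | (F m).primeFactorsList.length ≤ r ∧ ∀ p : ℕ, p.Prime → p ∣ F m → y < p ^ r}

/-- The primes `p` of the question. -/
def BothPrime : Set ℕ := {m | m.Prime ∧ (m ^ 2 + m + 1).Prime}

/-- the polynomial -/
noncomputable def P (N : ℕ) : ℤ[X] := (X + C (N : ℤ)) * ((X + C (N : ℤ)) ^ 2 + (X + C (N : ℤ)) + 1)

theorem P_eval (N n : ℕ) : (P N).eval (n : ℤ) = ((F (N + n) : ℕ) : ℤ) := by
  unfold P F
  simp only [eval_mul, eval_add, eval_X, eval_C, eval_pow, eval_one]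
  push_cast
  ring

theorem P_deg (N : ℕ) : (P N).natDegree ≤ 3 := by
  unfold P
  compute_degree

theorem F_mod (p n : ℕ) : p ∣ F n ↔ p ∣ F (n % p) := by
  have h : F n ≡ F (n % p) [MOD p] := by
    have h1 : n ≡ n % p [MOD p] := (Nat.mod_modEq n p).symm
    unfold F
    exact h1.mul (((h1.pow 2).add h1).add_right 1)
  exact h.dvd_iff (dvd_refl p)

open Pool.Agent.H373R2.T7 Pool.Agent.W123.RP Pool.Agent.W123.RU.Poly Pool.Agent.W182.PW in
open Pool.Agent.TH464.PW (quad quad_irr quad_deg quad_lead quad_eval) in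
/-- the system `X`, `X ^ 2 + X + 1` -/
theorem sys : Sys (fun i : Bool => if i then (X : ℤ[X]) else quad 1 1 1) := by
  have hne : (X : ℤ[X]) ≠ quad 1 1 1 := by
    intro h
    have h1 := quad_deg 1 1 1 one_ne_zero
    rw [← h, natDegree_X] at h1
    omega
  constructor
  · intro i
    cases i
    · refine quad_irr 1 1 1 one_ne_zero (fun p hp h => ?_) ?_
      · have := Int.isUnit_iff.1 (isUnit_of_dvd_one h.1)
        have h2 := hp.two_le
        omega
      · rintro ⟨x, hx⟩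
        nlinarith [mul_self_nonneg x]
    · exact irreducible_X
  · intro i
    cases i
    · simp [quad_deg 1 1 1 one_ne_zero]
    · simp
  · intro i
    cases i
    · simp [quad_lead 1 1 1 one_ne_zero]
    · simp
  · intro i j hij
    cases i <;> cases j
    · rfl
    · exact absurd hij.symm (by simpa using hne)
    · exact absurd hij (by simpa using hne)
    · rfl
  · intro p hp
    have h2 := hp.two_le
    refine ⟨p - 1, fun i => ?_⟩
    have e : ((p - 1 : ℕ) : ℤ) = (p : ℤ) - 1 := by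
      rw [Nat.cast_sub (by omega)]
      simp
    have hone : ¬ (p : ℤ) ∣ 1 := by
      intro h
      have := Int.le_of_dvd one_pos h
      omega
    cases i
    · simp only [Bool.false_eq_true, if_false]
      rw [quad_eval, e]
      intro h
      apply hone
      have h3 : (1 : ℤ) = 1 * ((p : ℤ) - 1) ^ 2 + 1 * ((p : ℤ) - 1) + 1 - p * (p - 1) := by ring
      rw [h3]
      exact dvd_sub h (dvd_mul_right _ _)
    · simp only [if_true, eval_X]
      rw [e]
      intro h
      apply hone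
      have h3 : (1 : ℤ) = p - ((p : ℤ) - 1) := by ring
      rw [h3]
      exact dvd_sub (dvd_refl _) h

open Pool.Agent.H373R2.T7 Pool.Agent.W123.RP Pool.Agent.W123.RU.Poly Pool.Agent.W182.PW in
open Pool.Agent.TH464.PW (quad quad_irr quad_deg quad_lead quad_eval) in
open Classical in
theorem WG_eq (N x : ℕ) : Pool.Agent.Y816.PD.WG (fun n => ((F (N + n) : ℕ) : ℤ)) x =
    Vq (Q (fun i : Bool => if i then (X : ℤ[X]) else quad 1 1 1)) x := by
  unfold Pool.Agent.Y816.PD.WG Vq pz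
  refine prod_congr rfl fun p hp => ?_
  rw [mem_filter] at hp
  have h1 := Pool.Agent.Y816.PD.shift_eq p N hp.2.pos (fun n => p ∣ F n) (F_mod p)
  have h2 : ((range p).filter (fun n : ℕ => (p : ℤ) ∣ ((F (N + n) : ℕ) : ℤ))).card =
      ((range p).filter (fun n : ℕ => p ∣ F n)).card := by
    have e1 : ((range p).filter (fun n : ℕ => (p : ℤ) ∣ ((F (N + n) : ℕ) : ℤ))) =
        ((range p).filter (fun n : ℕ => p ∣ F (N + n))) :=
      filter_congr fun n _ => Int.natCast_dvd_natCast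
    rw [e1]
    convert h1
  have h3 : nuB (Q (fun i : Bool => if i then (X : ℤ[X]) else quad 1 1 1)) p =
      ((range p).filter (fun n : ℕ => p ∣ F n)).card := by
    unfold nuB
    congr 1
    apply filter_congr
    intro n _
    unfold Q F
    rw [hp.2.dvd_mul]
    have e2 : ((1 : ℤ) * (n : ℤ) ^ 2 + 1 * n + 1) = ((n ^ 2 + n + 1 : ℕ) : ℤ) := by
      push_cast
      ring
    constructor
    · rintro ⟨i, hi⟩
      cases i
      · simp only [Bool.false_eq_true, if_false] at hi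
        rw [quad_eval, e2, Int.natCast_dvd_natCast] at hi
        exact Or.inr hi
      · simp only [if_true, eval_X] at hi
        exact Or.inl (Int.natCast_dvd_natCast.1 hi)
    · rintro (h | h)
      · exact ⟨true, by simpa using Int.natCast_dvd_natCast.2 h⟩
      · refine ⟨false, ?_⟩
        simp only [Bool.false_eq_true, if_false]
        rw [quad_eval, e2, Int.natCast_dvd_natCast]
        exact h
  rw [h3, ← h2]

open Pool.Agent.H373R2.T7 Pool.Agent.W123.RP Pool.Agent.W123.RU.Poly Pool.Agent.W182.PW in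
open Pool.Agent.TH464.PW (quad quad_irr quad_deg quad_lead quad_eval) in
theorem WG_bounds (b : ℕ) (hb : 2 ≤ b) : ∃ v w : ℝ, 0 < v ∧ 0 < w ∧ ∀ᶠ K : ℕ in atTop, ∀ N : ℕ,
    v / (K : ℝ) ^ 2 ≤ Pool.Agent.Y816.PD.WG (fun n => ((F (N + n) : ℕ) : ℤ)) (b ^ K) ∧
      Pool.Agent.Y816.PD.WG (fun n => ((F (N + n) : ℕ) : ℤ)) (b ^ K) ≤ w / (K : ℝ) ^ 2 := by
  obtain ⟨v, Cv, hv, hCv, h⟩ := V_bounds _ sys
  have hb1 : (1 : ℝ) < b := by exact_mod_cast (by omega : 1 < b)
  have hlb : 0 < Real.log b := Real.log_pos hb1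
  refine ⟨v / Real.log b ^ 2, Cv / Real.log b ^ 2, by positivity, by positivity, ?_⟩
  filter_upwards [eventually_ge_atTop 2] with K hK N
  have hK0 : (0 : ℝ) < K := by exact_mod_cast (by omega : 0 < K)
  have h3 : 3 ≤ b ^ K := by
    calc 3 ≤ 2 ^ 2 := by norm_num
      _ ≤ 2 ^ K := Nat.pow_le_pow_right (by norm_num) hK
      _ ≤ b ^ K := Nat.pow_le_pow_left hb K
  obtain ⟨h4, h5⟩ := h (b ^ K) h3
  rw [WG_eq]
  rw [Fintype.card_bool] at h4 h5
  push_cast at h4 h5
  rw [Real.log_pow] at h4 h5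
  have e : ∀ u : ℝ, u / Real.log b ^ 2 / (K : ℝ) ^ 2 = u / ((K : ℝ) * Real.log b) ^ 2 := by
    intro u
    rw [mul_pow]
    field_simp
  rw [e, e]
  exact ⟨h4, h5⟩

theorem count_eq (b K : ℕ) (E : ℕ → Finset ℕ) (N : ℕ) (S T : Set ℕ) (h : ∀ j, j ∈ T ↔ N + j ∈ S) :
    Pool.Agent.Y816.PD.ND b K E T = count b K E N S := by
  classical
  unfold Pool.Agent.Y816.PD.ND count
  rw [← Set.ncard_coe_finset]
  congr 1
  ext j
  rw [mem_coe, mem_filter, mem_range, h]
  simp only [Set.mem_ofPred_eq]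

/-- **Restricted digits.** -/
theorem result (D : ℕ) :
    ∃ c : ℝ, 0 < c ∧ ∃ r₀ : ℕ, 2 ≤ r₀ ∧ ∀ r : ℕ, r₀ ≤ r → ∀ b : ℕ, 2 ≤ b → ∃ κ C : ℝ, 0 < κ ∧ 0 < C ∧
      ∀ᶠ K : ℕ in atTop, ∀ N : ℕ, N ≤ b ^ (D * K) → ∀ E : ℕ → Finset ℕ, (∀ i < K, E i ⊆ range b) →
        (b : ℝ) ^ K ≤ Real.exp (c * K) * ∏ i ∈ range K, ((E i).card : ℝ) →
        ((∃ d ∈ E 0, (F (N + d)).Coprime b) →
          κ * (∏ i ∈ range K, ((E i).card : ℝ)) / (K : ℝ) ^ 2 ≤ count b K E N (Almost r (b ^ K))) ∧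
        (count b K E N BothPrime : ℝ) ≤ C * (∏ i ∈ range K, ((E i).card : ℝ)) / (K : ℝ) ^ 2 := by
  obtain ⟨c, hc, r₀, hr₀, h⟩ := Pool.Agent.Y816.PD.uni_fun 3 ((D + 2) * 5) (by omega)
  refine ⟨c, hc, r₀, hr₀, fun r hr b hb => ?_⟩
  obtain ⟨κ, C, hκ, hC, h1⟩ := h r hr b hb
  obtain ⟨v, w, hv, hw, hW⟩ := WG_bounds b hb
  refine ⟨κ * v, C * w, by positivity, by positivity, ?_⟩
  filter_upwards [h1, hW, eventually_ge_atTop 1] with K hK hWK hK1 N hN E hE hprod
  have hb0 : 0 < b := by omega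
  have hbK : 2 ≤ b ^ K := by
    calc 2 ≤ b := hb
      _ = b ^ 1 := (pow_one b).symm
      _ ≤ b ^ K := Nat.pow_le_pow_right hb0 hK1
  have hDK : 1 ≤ b ^ (D * K) := Nat.one_le_pow _ _ hb0
  have hsum : b ^ (D * K) * b ^ K * b ^ K = b ^ ((D + 2) * K) := by
    rw [← pow_add, ← pow_add]
    congr 1
    ring
  have hsize1 : ∀ n : ℕ, n < b ^ K → N + n ≤ b ^ ((D + 2) * K) := by
    intro n hn
    rw [← hsum]
    calc N + n ≤ b ^ (D * K) + b ^ K := by omega
      _ ≤ b ^ (D * K) * b ^ K + b ^ (D * K) * b ^ K :=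
          Nat.add_le_add (Nat.le_mul_of_pos_right _ (by omega)) (Nat.le_mul_of_pos_left _ (by omega))
      _ = b ^ (D * K) * b ^ K * 2 := by ring
      _ ≤ b ^ (D * K) * b ^ K * b ^ K := Nat.mul_le_mul_left _ hbK
  have hsize : ∀ n : ℕ, n < b ^ K → (((F (N + n) : ℕ) : ℤ)).natAbs ≤ b ^ ((D + 2) * 5 * K) := by
    intro n hn
    rw [Int.natAbs_natCast]
    obtain ⟨Z, hZ⟩ : ∃ Z : ℕ, Z = b ^ ((D + 2) * K) := ⟨_, rfl⟩
    have h2 := hsize1 n hn
    rw [← hZ] at h2
    have hZ2 : 2 ≤ Z := by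
      rw [hZ, ← hsum]
      calc 2 ≤ b ^ K := hbK
        _ ≤ b ^ (D * K) * b ^ K * b ^ K := Nat.le_mul_of_pos_left _ (by positivity)
    have h3 : b ^ ((D + 2) * 5 * K) = Z ^ 5 := by
      rw [hZ, ← pow_mul]
      congr 1
      ring
    rw [h3]
    unfold F
    have h4 : (N + n) ^ 2 + (N + n) + 1 ≤ Z ^ 4 := by
      have h5 : (N + n) ^ 2 ≤ Z ^ 2 := Nat.pow_le_pow_left h2 2
      have h6 : Z ^ 2 * 4 ≤ Z ^ 4 := by
        calc Z ^ 2 * 4 = Z ^ 2 * 2 ^ 2 := by norm_num
          _ ≤ Z ^ 2 * Z ^ 2 := Nat.mul_le_mul_left _ (Nat.pow_le_pow_left hZ2 2)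
          _ = Z ^ 4 := by ring
      have h7 : Z ≤ Z ^ 2 := by nlinarith
      have h8 : 1 ≤ Z ^ 2 := by nlinarith
      omega
    calc (N + n) * ((N + n) ^ 2 + (N + n) + 1) ≤ Z * Z ^ 4 := Nat.mul_le_mul h2 h4
      _ = Z ^ 5 := by ring
  obtain ⟨h2, h3⟩ := hK (fun n => ((F (N + n) : ℕ) : ℤ))
    ⟨P N, P_deg N, fun n => P_eval N n⟩
    (fun p hp => by
      refine ⟨p - 1 + (p * N - N), fun hd => ?_⟩
      have hp2 := hp.two_le
      have e1 : N + (p - 1 + (p * N - N)) = (p - 1) + p * N := by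
        have : N ≤ p * N := Nat.le_mul_of_pos_left N hp.pos
        omega
      have h4 : p ∣ F (N + (p - 1 + (p * N - N))) := Int.natCast_dvd_natCast.1 hd
      rw [e1, F_mod, Nat.add_mul_mod_self_left, ← F_mod] at h4
      unfold F at h4
      rcases hp.dvd_mul.1 h4 with h5 | h5
      · have := Nat.le_of_dvd (by omega) h5
        omega
      · have h6 : (p - 1) ^ 2 + (p - 1) + 1 = p * (p - 1) + 1 := by
          obtain ⟨k, rfl⟩ : ∃ k, p = k + 1 := ⟨p - 1, by omega⟩
          simp only [Nat.add_sub_cancel]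
          ring
        rw [h6] at h5
        have h7 : p ∣ 1 := (Nat.dvd_add_right (dvd_mul_right p (p - 1))).1 h5
        have := Nat.le_of_dvd one_pos h7
        omega)
    hsize E hE hprod
  obtain ⟨hW1, hW2⟩ := hWK N
  unfold Pool.Agent.Y816.PD.NA at h2 h3
  have hP0 : 0 ≤ ∏ i ∈ range K, ((E i).card : ℝ) := prod_nonneg fun i _ => Nat.cast_nonneg _
  constructor
  · intro hd
    have h4 := h2 (by
      obtain ⟨d, hd1, hd2⟩ := hd
      exact ⟨d, hd1, by rwa [Int.natAbs_natCast]⟩)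
    rw [count_eq b K E N (Almost r (b ^ K)) _ (fun j => by
      unfold Pool.Agent.Y816.PD.Alm Almost
      simp only [Set.mem_ofPred_eq, Int.natAbs_natCast, Int.natCast_dvd_natCast]
      exact and_comm)] at h4
    refine le_trans ?_ h4
    calc κ * v * (∏ i ∈ range K, ((E i).card : ℝ)) / (K : ℝ) ^ 2 =
        κ * (∏ i ∈ range K, ((E i).card : ℝ)) * (v / (K : ℝ) ^ 2) := by ring
      _ ≤ _ := mul_le_mul_of_nonneg_left hW1 (by positivity)
  · have h6 : (count b K E N BothPrime : ℝ) ≤ C * (∏ i ∈ range K, ((E i).card : ℝ)) *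
        Pool.Agent.Y816.PD.WG (fun n => ((F (N + n) : ℕ) : ℤ)) (b ^ K) := by
      refine le_trans ?_ h3
      rw [← count_eq b K E N BothPrime {j | N + j ∈ BothPrime} (fun j => Iff.rfl)]
      have h5 := Pool.Agent.Y816.PD.ND_mono (b := b) (K := K) (A := E) (S := {j | N + j ∈ BothPrime})
        (T := Pool.Agent.Y816.PD.Rgh (fun n => ((F (N + n) : ℕ) : ℤ)) r) (fun j hj => by
          intro p hp hd
          have h6 : p ∣ F (N + j) := Int.natCast_dvd_natCast.1 hd
          have hj' : (N + j).Prime ∧ ((N + j) ^ 2 + (N + j) + 1).Prime := hj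
          refine Pool.Agent.Y816.PD.lt_pow_of_le hp ?_ (hr₀.trans hr)
          unfold F at h6
          rcases hp.dvd_mul.1 h6 with h7 | h7
          · rw [(Nat.prime_dvd_prime_iff_eq hp hj'.1).1 h7]
            exact Nat.le_add_left _ _
          · rw [(Nat.prime_dvd_prime_iff_eq hp hj'.2).1 h7]
            have := Nat.zero_le ((N + j) ^ 2)
            omega)
      exact_mod_cast h5
    refine h6.trans ?_
    calc C * (∏ i ∈ range K, ((E i).card : ℝ)) *
        Pool.Agent.Y816.PD.WG (fun n => ((F (N + n) : ℕ) : ℤ)) (b ^ K) ≤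
        C * (∏ i ∈ range K, ((E i).card : ℝ)) * (w / (K : ℝ) ^ 2) :=
          mul_le_mul_of_nonneg_left hW2 (by positivity)
      _ = C * w * (∏ i ∈ range K, ((E i).card : ℝ)) / (K : ℝ) ^ 2 := by ring

end Pool.Agent.Results.MP_82233c_nt.RestrictedDigits
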